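import Mathlib

/-!
# Linear relations that hold eventually hold at one index
-/

namespace Pool.Agent.Lib.MP_1b01a6_co.Poly

open Filter

/-- The integer relations of finitely many sequences that hold eventually. -/
def rel57 {ι : Type*} [Fintype ι] (U : Filter ℕ) (l : ι → ℕ → ℝ) : Submodule ℤ (ι → ℤ) where
  carrier := {a | ∀ᶠ m in U, ∑ i, (a i : ℝ) * l i m = 0}
  zero_mem' := by
    refine Eventually.of_forall fun m => ?_
    simp
  add_mem' := by
    intro a b ha hb
    filter_upwards [ha, hb] with m h1 h2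
    simp only [Pi.add_apply, Int.cast_add, add_mul, Finset.sum_add_distrib, h1, h2, add_zero]
  smul_mem' := by
    intro c a ha
    filter_upwards [ha] with m h1
    simp only [Pi.smul_apply, smul_eq_mul, Int.cast_mul, mul_assoc, ← Finset.mul_sum, h1,
      mul_zero]

/-- There is one index (with a property that holds eventually) at which all eventual integer
relations hold. -/
theorem exists_index57 {ι : Type*} [Fintype ι] (U : Filter ℕ) [U.NeBot] (l : ι → ℕ → ℝ)
    (P : ℕ → Prop) (hP : ∀ᶠ m in U, P m) :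
    ∃ m0, P m0 ∧ ∀ a : ι → ℤ, (∀ᶠ m in U, ∑ i, (a i : ℝ) * l i m = 0) →
      ∑ i, (a i : ℝ) * l i m0 = 0 := by
  classical
  obtain ⟨S, hS⟩ : (rel57 U l).FG := IsNoetherian.noetherian _
  have h1 : ∀ᶠ m in U, P m ∧ ∀ a ∈ S, ∑ i, (a i : ℝ) * l i m = 0 := by
    refine hP.and ?_
    rw [Filter.eventually_all_finset]
    intro a ha
    have h2 : a ∈ rel57 U l := by
      rw [← hS]
      exact Submodule.subset_span ha
    exact h2
  obtain ⟨m0, h2, h3⟩ := h1.exists
  refine ⟨m0, h2, fun a ha => ?_⟩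
  have h4 : a ∈ Submodule.span ℤ (S : Set (ι → ℤ)) := by
    rw [hS]
    exact ha
  induction h4 using Submodule.span_induction with
  | mem x hx => exact h3 x hx
  | zero => simp
  | add x y hx hy hx' hy' =>
    have ex : ∀ᶠ m in U, ∑ i, (x i : ℝ) * l i m = 0 := by
      rw [hS] at hx
      exact hx
    have ey : ∀ᶠ m in U, ∑ i, (y i : ℝ) * l i m = 0 := by
      rw [hS] at hy
      exact hy
    have e1 := hx' ex
    have e2 := hy' ey
    simp only [Pi.add_apply, Int.cast_add, add_mul, Finset.sum_add_distrib, e1, e2, add_zero]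
  | smul c x hx hx' =>
    have ex : ∀ᶠ m in U, ∑ i, (x i : ℝ) * l i m = 0 := by
      rw [hS] at hx
      exact hx
    have e1 := hx' ex
    simp only [Pi.smul_apply, smul_eq_mul, Int.cast_mul, mul_assoc, ← Finset.mul_sum, e1,
      mul_zero]

/-- Rational relations. -/
theorem rat_rel57 {ι : Type*} [Fintype ι] (U : Filter ℕ) (l : ι → ℕ → ℝ) (m0 : ℕ)
    (h : ∀ a : ι → ℤ, (∀ᶠ m in U, ∑ i, (a i : ℝ) * l i m = 0) → ∑ i, (a i : ℝ) * l i m0 = 0)
    (c : ι → ℚ) (hc : ∀ᶠ m in U, ∑ i, (c i : ℝ) * l i m = 0) :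
    ∑ i, (c i : ℝ) * l i m0 = 0 := by
  classical
  set d : ℕ := ∏ i, (c i).den with hd
  have hd0 : (d : ℝ) ≠ 0 := by
    rw [hd, Nat.cast_ne_zero]
    exact Finset.prod_ne_zero_iff.2 fun i _ => (c i).den_nz
  have h1 : ∀ i, ∃ a : ℤ, (a : ℝ) = (d : ℝ) * (c i : ℝ) := by
    intro i
    obtain ⟨e, he⟩ : (c i).den ∣ d := Finset.dvd_prod_of_mem _ (Finset.mem_univ i)
    refine ⟨(e : ℤ) * (c i).num, ?_⟩
    have h2 : ((c i : ℚ) : ℝ) * ((c i).den : ℝ) = ((c i).num : ℝ) := by
      have := Rat.mul_den_eq_num (c i)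
      exact_mod_cast this
    rw [he, Int.cast_mul, ← h2, Nat.cast_mul]
    push_cast
    ring
  choose a ha using h1
  have h2 := h a (by
    filter_upwards [hc] with m hm
    have : ∑ i, (a i : ℝ) * l i m = (d : ℝ) * ∑ i, (c i : ℝ) * l i m := by
      rw [Finset.mul_sum]
      refine Finset.sum_congr rfl fun i _ => ?_
      rw [ha]
      ring
    rw [this, hm, mul_zero])
  have h3 : ∑ i, (a i : ℝ) * l i m0 = (d : ℝ) * ∑ i, (c i : ℝ) * l i m0 := by
    rw [Finset.mul_sum]
    refine Finset.sum_congr rfl fun i _ => ?_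
    rw [ha]
    ring
  rw [h3] at h2
  exact (mul_eq_zero.1 h2).resolve_left hd0

/-- The sequences that vanish eventually. -/
def null57 (U : Filter ℕ) : Submodule ℚ (ℕ → ℝ) where
  carrier := {f | f =ᶠ[U] 0}
  zero_mem' := EventuallyEq.refl _ _
  add_mem' := by
    intro a b ha hb
    filter_upwards [ha, hb] with m h1 h2
    simp [h1, h2]
  smul_mem' := by
    intro c a ha
    filter_upwards [ha] with m h1
    simp [h1]

/-- EPS: finitely many sequences `l i`; one index `m0` and a rational linear functional on all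
sequences, which depends on the germ only, with `φ (l i) = l i m0`. -/
theorem eps57 {ι : Type*} [Fintype ι] (U : Filter ℕ) [U.NeBot] (l : ι → ℕ → ℝ)
    (P : ℕ → Prop) (hP : ∀ᶠ m in U, P m) :
    ∃ m0, P m0 ∧ (∀ a : ι → ℤ, (∀ᶠ m in U, ∑ i, (a i : ℝ) * l i m = 0) →
      ∑ i, (a i : ℝ) * l i m0 = 0) ∧
      ∃ φ : (ℕ → ℝ) →ₗ[ℚ] ℝ, (∀ f g, f =ᶠ[U] g → φ f = φ g) ∧ ∀ i, φ (l i) = l i m0 := by
  classical
  obtain ⟨m0, h1, h2⟩ := exists_index57 U l P hP
  refine ⟨m0, h1, h2, ?_⟩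
  have h3 := rat_rel57 U l m0 h2
  let ψ : (ι → ℚ) →ₗ[ℚ] ((ℕ → ℝ) ⧸ null57 U) :=
    (null57 U).mkQ ∘ₗ (Fintype.linearCombination ℚ l)
  let χ : (ι → ℚ) →ₗ[ℚ] ℝ := Fintype.linearCombination ℚ fun i => l i m0
  have hψ : ∀ c, ψ c = (null57 U).mkQ (∑ i, c i • l i) := by
    intro c
    rfl
  have hχ : ∀ c, χ c = ∑ i, (c i : ℝ) * l i m0 := by
    intro c
    simp [χ, Fintype.linearCombination_apply, Rat.smul_def]
  have hker : LinearMap.ker ψ ≤ LinearMap.ker χ := by
    intro c hc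
    rw [LinearMap.mem_ker] at hc ⊢
    rw [hχ]
    apply h3
    rw [hψ, Submodule.mkQ_apply, Submodule.Quotient.mk_eq_zero] at hc
    have h4 : (∑ i, c i • l i) =ᶠ[U] 0 := hc
    filter_upwards [h4] with m hm
    rw [Finset.sum_apply] at hm
    simpa [Rat.smul_def] using hm
  let g : LinearMap.range ψ →ₗ[ℚ] ℝ :=
    ((LinearMap.ker ψ).liftQ χ hker) ∘ₗ (ψ.quotKerEquivRange.symm : _ →ₗ[ℚ] _)
  obtain ⟨e, he⟩ := LinearMap.exists_extend g
  have h5 : ∀ c, e (ψ c) = χ c := by
    intro c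
    have h6 : e (ψ c) = g ⟨ψ c, LinearMap.mem_range_self ψ c⟩ := by
      rw [← he]
      rfl
    rw [h6]
    have h7 : ψ.quotKerEquivRange.symm ⟨ψ c, LinearMap.mem_range_self ψ c⟩ =
        Submodule.Quotient.mk c := by
      rw [LinearEquiv.symm_apply_eq]
      rfl
    simp only [g, LinearMap.comp_apply, LinearEquiv.coe_coe, h7, Submodule.liftQ_apply]
  refine ⟨e ∘ₗ (null57 U).mkQ, ?_, ?_⟩
  · intro f f' hf
    simp only [LinearMap.comp_apply, Submodule.mkQ_apply]
    congr 1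
    rw [Submodule.Quotient.eq]
    have h8 : (f - f') =ᶠ[U] 0 := by
      filter_upwards [hf] with m hm
      simp [hm]
    exact h8
  · intro i
    have h9 := h5 (Pi.single i 1)
    rw [hψ, hχ] at h9
    simp only [LinearMap.comp_apply]
    have h10 : (∑ j, (Pi.single i 1 : ι → ℚ) j • l j) = l i := by
      rw [Finset.sum_eq_single i]
      · simp
      · intro j _ hj
        simp [Pi.single_eq_of_ne hj]
      · simp
    have h11 : ∑ j, (((Pi.single i 1 : ι → ℚ) j : ℚ) : ℝ) * l j m0 = l i m0 := by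
      rw [Finset.sum_eq_single i]
      · simp
      · intro j _ hj
        simp [Pi.single_eq_of_ne hj]
      · simp
    rw [h10, h11] at h9
    exact h9

end Pool.Agent.Lib.MP_1b01a6_co.Poly
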